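import Pool.Agent.Lib.MP_9dcf40_lc.Av.Final

/-!
MP_9dcf40_lc. `P` is not contained in `POLYLOGSPACE` with polylogarithmic advice, or for all `c`, `d`
some language in `POLYLOGSPACE` over a binary alphabet cannot be computed in time `2 ^ O((log n) ^ d)` (`DTIME`) with
`(log n) ^ c + c` bits of advice on more than a fraction `1 / 2 + 2 ^ (- (log n) ^ c)` of the words of
length `n`, for all large `n`.
-/

namespace Pool.Agent.Results.MP_9dcf40_lc.AverageP

open Pool.Agent.Lib.MP_9dcf40_lc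

theorem result :
    ¬ Incl InP (Adv InPolyL PolyLog) ∨
      ∀ c d : ℕ, ∃ L : Set (List Bool), InPolyL Bool L ∧ ¬ IoHeur (InQTime d) c Bool L := by
  by_contra h
  push Not at h
  obtain ⟨h₀, c, d, h₁⟩ := h
  obtain ⟨L, h₂, h₃⟩ := all_emain.1 h₀ c d
  exact h₃ (h₁ L h₂)

end Pool.Agent.Results.MP_9dcf40_lc.AverageP
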