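import Pool.Agent.Lib.BP.AMain

/-!
MP_9dcf40_lc. The P-complete generation problem, and nondeterministic branching programs which ask
(up to few exceptional elements) only for products of generated elements: size `2 ^ (N ^ (1/2 - o(1)))`
is necessary, where `N` is the number of elements, even on average, and size `2 ^ (N ^ (1 - o(1)))`
for quasipolynomial time.
-/

namespace Pool.Agent.Lib.MP_9dcf40_lc.Retired.GenBP

open Pool.Agent.Lib.BP

theorem result (X : Type) [Fintype X] (s t : X) (hst : s ≠ t) (c τ : ℕ) (hτ : 1 ≤ τ) (hτc : τ ≤ c)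
    (hX : 2000000000 * (c * τ * (Nat.log 2 c + 4) ^ 3) ≤ Fintype.card X) :
    ∃ (ι : Type) (_ : Fintype ι) (g : ι → X × X → X), Nonempty ι ∧ (∀ i, Gen (g i) s t) ∧
      ∀ (P : NBP (X × X) X) (r : ℕ), 2 * r ≤ c → Sound P s t → AlmostGen P s r →
        Fintype.card ι ≤ 2 ^ c * Nat.card {i // ∃ l, ∃ q ∈ P.acc,
          P.Comp (g i) P.start l q ∧ (l.length < 2 ^ τ ∨ τ = c)} → 2 ^ c ≤ P.size :=
  alower hst hτ hτc hX

end Pool.Agent.Lib.MP_9dcf40_lc.Retired.GenBP
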