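import Pool.Agent.Lib.MP_9dcf40_lc.LIN.AllT

/-!
MP_9dcf40_lc. Boolean nondeterministic branching programs of linear length for the circuit value
function, with no restriction on inconsistent paths.

1. For every `k`, if at least `2 ^ n * exp (- ε n)` of the inputs `y` of a suitable circuit `c` with
`O (n ^ 4)` gates are accepted by computations with at most `k n` tests of the `n` bits `y_i` outside some
set of at most `ε n` of them (these and the bits of `c` may be tested arbitrarily often), and all accepted
`y` have the value `1`, then the program has at least `exp (ε n)` states.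

2. Let `MVal (c, y_1, …, y_t)` be true iff the circuit `c` has the value `1` on all inputs `y_j`, where `t n`
is at least the number of bits of `c`. For every `k`, a program which computes this function such that every
accepted input has an accepting computation whose length is at most `k` times the number of variables has
at least `exp (ε n)` states.
-/

namespace Pool.Agent.Lib.MP_9dcf40_lc.Retired.LinearLength

open SRBP

theorem result : ∀ k : ℕ, ∃ ε : ℝ, 0 < ε ∧ ∃ N : ℕ, ∀ n ≥ N, ∀ m ≥ 9 * (n + 1) ^ 4,
    (∃ c : CBits n m → Bool, 2 ^ (n - 2) ≤ Nat.card {y // Val n m c y} ∧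
    ∀ (P : NBP (CBits n m ⊕ Fin n)) (s : ℕ), (s : ℝ) ≤ ε * n →
      (∀ y, Accepts P (Sum.elim c y) → Val n m c y) →
      (2 : ℝ) ^ n * Real.exp (-(ε * n)) ≤ Nat.card {y // Short P (k * n) s (Sum.elim c y)} →
      Real.exp (ε * n) ≤ Fintype.card P.V) ∧
    ∀ t : ℕ, Fintype.card (CBits n m) ≤ t * n → ∀ P : NBP (CBits n m ⊕ Fin t × Fin n),
      (∀ z, Accepts P z → MVal n m t z) →
      (∀ z, MVal n m t z → ∃ v l, P.acc v ∧ Walk P P.start l v ∧ Consistent z l ∧
        l.length ≤ k * Fintype.card (CBits n m ⊕ Fin t × Fin n)) →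
      Real.exp (ε * n) ≤ Fintype.card P.V := by
  intro k
  obtain ⟨ε₁, h1, N₁, H1⟩ := short_main aTopK aCir tRes k
  obtain ⟨ε₂, h2, N₂, H2⟩ := aTot k
  refine ⟨min ε₁ ε₂, lt_min h1 h2, max N₁ N₂, fun n hn m hm => ⟨?_, ?_⟩⟩
  · obtain ⟨c, hc, H⟩ := H1 n ((le_max_left _ _).trans hn) m hm
    have hle : min ε₁ ε₂ * n ≤ ε₁ * n :=
      mul_le_mul_of_nonneg_right (min_le_left _ _) (Nat.cast_nonneg n)
    refine ⟨c, hc, fun P s hs hP hd => ?_⟩
    refine (Real.exp_le_exp.2 hle).trans (H P s (hs.trans hle) hP (le_trans ?_ hd))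
    gcongr
  · intro t ht P hP hW
    have hle : min ε₁ ε₂ * n ≤ ε₂ * n :=
      mul_le_mul_of_nonneg_right (min_le_right _ _) (Nat.cast_nonneg n)
    exact (Real.exp_le_exp.2 hle).trans (H2 n ((le_max_right _ _).trans hn) m hm t ht P hP hW)

end Pool.Agent.Lib.MP_9dcf40_lc.Retired.LinearLength
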